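import Pool.Agent.W2helper90.RT.Stm

set_option autoImplicit false

open MeasureTheory Set

namespace Pool.Agent.W2helper90.RT

noncomputable section

/-- the volume of the unit ball -/
theorem om_eq {d : ℕ} (hd : 1 ≤ d) :
    (volume (Metric.ball (0 : EuclideanSpace ℝ (Fin d)) 1)).toReal =
      Real.pi ^ ((d : ℝ) / 2) / Real.Gamma ((d : ℝ) / 2 + 1) := by
  haveI : Nonempty (Fin d) := ⟨⟨0, hd⟩⟩
  have hg : 0 < Real.Gamma ((d : ℝ) / 2 + 1) := Real.Gamma_pos_of_pos (by positivity)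
  rw [EuclideanSpace.volume_ball]
  simp only [ENNReal.ofReal_one, one_pow, one_mul, Fintype.card_fin]
  rw [ENNReal.toReal_ofReal (by positivity)]
  congr 1
  rw [Real.sqrt_eq_rpow, ← Real.rpow_natCast, ← Real.rpow_mul Real.pi_pos.le]
  congr 1
  ring

theorem t_CST2 : S_CST2 := by
  have hπ := Real.pi_pos
  refine ⟨?_, ?_, ?_⟩
  · intro k m hk
    have hk0 : (0 : ℝ) < k := by exact_mod_cast (show 0 < k by omega)
    have hsg : Pool.Agent.R117.RL.sg k =
        k * (Real.pi ^ ((k : ℝ) / 2) / Real.Gamma ((k : ℝ) / 2 + 1)) := by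
      unfold Pool.Agent.R117.RL.sg Pool.Agent.R117.RL.om
      rw [om_eq (show 1 ≤ k by omega)]
    have hG1 : Real.Gamma ((k : ℝ) / 2 + 1) = (k : ℝ) / 2 * Real.Gamma ((k : ℝ) / 2) :=
      Real.Gamma_add_one (by positivity)
    have hG2 : Real.Gamma ((k : ℝ) / 2) * Real.Gamma ((k : ℝ) / 2 + 1 / 2) =
        Real.Gamma (2 * ((k : ℝ) / 2)) * 2 ^ (1 - 2 * ((k : ℝ) / 2)) * √Real.pi :=
      Real.Gamma_mul_Gamma_add_half _
    have e2 : 2 * ((k : ℝ) / 2) = k := by ring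
    rw [e2] at hG2
    have hG3 : Real.Gamma (k : ℝ) = ((k - 1).factorial : ℝ) := by
      obtain ⟨j, rfl⟩ : ∃ j, k = j + 1 := ⟨k - 1, by omega⟩
      have := Real.Gamma_nat_eq_factorial j
      simpa using this
    have hq : (0 : ℝ) < ((k : ℝ) + m) / 2 + 1 := by positivity
    have hG4 : Real.Gamma (((k : ℝ) + m) / 2 + 2) =
        (((k : ℝ) + m) / 2 + 1) * Real.Gamma (((k : ℝ) + m) / 2 + 1) := by
      rw [show ((k : ℝ) + m) / 2 + 2 = (((k : ℝ) + m) / 2 + 1) + 1 by ring,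
        Real.Gamma_add_one hq.ne']
    have hgk : 0 < Real.Gamma ((k : ℝ) / 2) := Real.Gamma_pos_of_pos (by positivity)
    have hgq : 0 < Real.Gamma (((k : ℝ) + m) / 2 + 1) := Real.Gamma_pos_of_pos hq
    have hf : (0 : ℝ) < ((k - 1).factorial : ℝ) := by exact_mod_cast Nat.factorial_pos _
    have h4 : (0 : ℝ) < 4 * Real.pi := by positivity
    -- powers
    have hp1 : (4 * Real.pi) ^ (((k + m : ℕ) : ℝ) / 2) =
        (4 * Real.pi) ^ (((m : ℝ) + 1) / 2) * (4 * Real.pi) ^ (((k : ℝ) - 1) / 2) := by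
      rw [← Real.rpow_add h4]
      congr 1
      push_cast
      ring
    have hp2 : (4 * Real.pi) ^ (((k : ℝ) - 1) / 2) =
        2 ^ ((k : ℝ) - 1) * Real.pi ^ (((k : ℝ) - 1) / 2) := by
      rw [Real.mul_rpow (by norm_num) hπ.le]
      congr 1
      rw [show (4 : ℝ) = 2 ^ (2 : ℝ) by norm_num, ← Real.rpow_mul (by norm_num)]
      congr 1
      ring
    have hp3 : Real.pi ^ ((k : ℝ) / 2) = Real.pi ^ (((k : ℝ) - 1) / 2) * √Real.pi := by
      rw [Real.sqrt_eq_rpow, ← Real.rpow_add hπ]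
      congr 1
      ring
    have hp4 : (2 : ℝ) ^ (1 - (k : ℝ)) = (2 ^ ((k : ℝ) - 1))⁻¹ := by
      rw [← Real.rpow_neg (by norm_num)]
      congr 1
      ring
    unfold Lc Lcl
    rw [hsg, hp1, hG1, show (((k + m : ℕ) : ℝ)) / 2 + 2 = ((k : ℝ) + m) / 2 + 2 by push_cast; ring, hG4, hp2,
      hp3]
    rw [hG3, hp4] at hG2
    have hG5 : Real.Gamma (((k : ℝ) + 1) / 2) =
        ((k - 1).factorial : ℝ) * (2 ^ ((k : ℝ) - 1))⁻¹ * √Real.pi / Real.Gamma ((k : ℝ) / 2) := by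
      rw [eq_div_iff hgk.ne', mul_comm, ← hG2]
      congr 2
      ring
    rw [hG5]
    have hP1 : 0 < (4 * Real.pi) ^ (((m : ℝ) + 1) / 2) := by positivity
    have hP2 : 0 < (2 : ℝ) ^ ((k : ℝ) - 1) := by positivity
    have hP3 : 0 < Real.pi ^ (((k : ℝ) - 1) / 2) := by positivity
    have hs : 0 < √Real.pi := Real.sqrt_pos.2 hπ
    have hkm : (0 : ℝ) < (k : ℝ) + m + 2 := by positivity
    field_simp
  · intro k hk
    unfold sm Pool.Agent.N303.SH.sg
    rw [Measure.toSphere_apply_univ]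
    unfold Pool.Agent.R117.RL.sg Pool.Agent.R117.RL.om
    rw [ENNReal.ofReal_mul (by positivity), ENNReal.ofReal_toReal measure_ball_lt_top.ne,
      ENNReal.ofReal_natCast]
    simp
  · intro d hd
    have hd0 : (0 : ℝ) < d := by exact_mod_cast hd
    have hG : Real.Gamma ((d : ℝ) / 2 + 2) = ((d : ℝ) / 2 + 1) * Real.Gamma ((d : ℝ) / 2 + 1) := by
      rw [show (d : ℝ) / 2 + 2 = ((d : ℝ) / 2 + 1) + 1 by ring, Real.Gamma_add_one (by positivity)]
    have hg : 0 < Real.Gamma ((d : ℝ) / 2 + 1) := Real.Gamma_pos_of_pos (by positivity)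
    have hg2 : 0 < Real.Gamma ((d : ℝ) / 2 + 2) := Real.Gamma_pos_of_pos (by positivity)
    have h4 : (0 : ℝ) < 4 * Real.pi := by positivity
    refine ⟨by unfold Lcl; positivity, ?_⟩
    unfold LTd.Kcl Lcl
    rw [om_eq hd, hG]
    congr 1
    have e1 : 2 / (((4 * Real.pi) ^ ((d : ℝ) / 2) *
        (((d : ℝ) / 2 + 1) * Real.Gamma ((d : ℝ) / 2 + 1)))⁻¹ * ((d : ℝ) + 2)) =
        (4 * Real.pi) ^ ((d : ℝ) / 2) * Real.Gamma ((d : ℝ) / 2 + 1) := by
      have : 0 < (4 * Real.pi) ^ ((d : ℝ) / 2) := by positivity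
      field_simp
    rw [e1, Real.mul_rpow (by positivity) hg.le, ← Real.rpow_mul h4.le, Real.div_rpow (by positivity) hg.le,
      ← Real.rpow_mul hπ.le]
    have e3 : (d : ℝ) / 2 * (2 / d) = 1 := by field_simp
    rw [e3, Real.rpow_one, Real.rpow_one]
    have hgp : 0 < Real.Gamma ((d : ℝ) / 2 + 1) ^ (2 / (d : ℝ)) := by positivity
    field_simp
    ring

end

end Pool.Agent.W2helper90.RT
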