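import Pool.Agent.W2helper90.RT.Stm

set_option autoImplicit false

open MeasureTheory Set
open LTd (pd)

namespace Pool.Agent.W2helper90.RT

noncomputable section

/-- the linear identification of `ℝ^k × ℝ^m` with `ℝ^(k+m)` -/
def PhL (k m : ℕ) : Z k m ≃ₗ[ℝ] (Fin (k + m) → ℝ) where
  toFun z i := Fin.addCases (fun i => z.1 i) (fun j => z.2 j) i
  invFun x := (WithLp.toLp 2 fun i => x (Fin.castAdd m i), fun j => x (Fin.natAdd k j))
  map_add' z z' := by
    funext i
    refine Fin.addCases (fun i => ?_) (fun j => ?_) i <;> simp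
  map_smul' c z := by
    funext i
    refine Fin.addCases (fun i => ?_) (fun j => ?_) i <;> simp
  left_inv z := by
    refine Prod.ext ?_ ?_
    · ext i; simp
    · funext j; simp
  right_inv x := by
    funext i
    refine Fin.addCases (fun i => ?_) (fun j => ?_) i <;> simp

/-- the continuous linear equivalence -/
def Ph (k m : ℕ) : Z k m ≃L[ℝ] (Fin (k + m) → ℝ) := (PhL k m).toContinuousLinearEquiv

@[simp] theorem Ph_cast {k m : ℕ} (z : Z k m) (i : Fin k) : Ph k m z (Fin.castAdd m i) = z.1 i := by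
  change Fin.addCases (fun i => z.1 i) (fun j => z.2 j) (Fin.castAdd m i) = z.1 i
  simp

@[simp] theorem Ph_nat {k m : ℕ} (z : Z k m) (j : Fin m) : Ph k m z (Fin.natAdd k j) = z.2 j := by
  change Fin.addCases (fun i => z.1 i) (fun j => z.2 j) (Fin.natAdd k j) = z.2 j
  simp

theorem Ph_mp (k m : ℕ) : MeasurePreserving (Ph k m) volume volume := by
  have h1 := volume_measurePreserving_piCongrLeft (fun _ : Fin (k + m) => ℝ) (finSumFinEquiv (m := k) (n := m))
  have h2 := volume_measurePreserving_sumPiEquivProdPi_symm (fun _ : Fin k ⊕ Fin m => ℝ)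
  have h3 := (EuclideanSpace.volume_preserving_symm_measurableEquiv_toLp (Fin k)).prod
    (MeasurePreserving.id (volume : Measure (Fin m → ℝ)))
  have h4 := h1.comp (h2.comp h3)
  have h5 : (fun z : Z k m => Ph k m z) =
      ⇑(MeasurableEquiv.piCongrLeft (fun _ : Fin (k + m) => ℝ) (finSumFinEquiv (m := k) (n := m))) ∘
      ⇑(MeasurableEquiv.sumPiEquivProdPi fun _ : Fin k ⊕ Fin m => ℝ).symm ∘
      Prod.map (⇑(MeasurableEquiv.toLp 2 (Fin k → ℝ)).symm) (id : (Fin m → ℝ) → (Fin m → ℝ)) := by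
    funext z i
    refine Fin.addCases (fun i => ?_) (fun j => ?_) i
    · rw [Ph_cast]
      simp only [Function.comp_apply]
      rw [show Fin.castAdd m i = finSumFinEquiv (Sum.inl i) by simp, MeasurableEquiv.coe_piCongrLeft,
        Equiv.piCongrLeft_apply_apply]
      rfl
    · rw [Ph_nat]
      simp only [Function.comp_apply]
      rw [show Fin.natAdd k j = finSumFinEquiv (Sum.inr j) by simp, MeasurableEquiv.coe_piCongrLeft,
        Equiv.piCongrLeft_apply_apply]
      rfl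
  change MeasurePreserving (fun z : Z k m => Ph k m z) volume volume
  rw [h5]
  exact h4

theorem Ph_me (k m : ℕ) : MeasurableEmbedding (Ph k m) :=
  (Ph k m).toHomeomorph.measurableEmbedding

theorem Ph_int {k m : ℕ} (f : (Fin (k + m) → ℝ) → ℝ) : ∫ z, f (Ph k m z) = ∫ x, f x :=
  (Ph_mp k m).integral_comp (Ph_me k m) f

theorem Ph_lint {k m : ℕ} (f : (Fin (k + m) → ℝ) → ENNReal) : ∫⁻ z, f (Ph k m z) = ∫⁻ x, f x :=
  (Ph_mp k m).lintegral_comp_emb (Ph_me k m) f

theorem Ph_single_left {k m : ℕ} (i : Fin k) :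
    Ph k m (EuclideanSpace.single i (1 : ℝ), 0) = Pi.single (Fin.castAdd m i) 1 := by
  funext l
  refine Fin.addCases (fun i' => ?_) (fun j' => ?_) l
  · rw [Ph_cast]
    simp [Pi.single_apply]
  · rw [Ph_nat]
    simp [Pi.single_apply, Fin.ext_iff]
    omega

theorem Ph_single_right {k m : ℕ} (j : Fin m) :
    Ph k m (0, Pi.single j 1) = Pi.single (Fin.natAdd k j) 1 := by
  funext l
  refine Fin.addCases (fun i' => ?_) (fun j' => ?_) l
  · rw [Ph_cast]
    simp [Pi.single_apply, Fin.ext_iff]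
    omega
  · rw [Ph_nat]
    simp [Pi.single_apply]

theorem Ph_sq {k m : ℕ} (z : Z k m) : ∑ i : Fin k, (Ph k m z) (Fin.castAdd m i) ^ 2 = ‖z.1‖ ^ 2 := by
  rw [EuclideanSpace.norm_sq_eq]
  refine Finset.sum_congr rfl fun i _ => ?_
  rw [Ph_cast, Real.norm_eq_abs, sq_abs]

theorem gr2_comp {k m : ℕ} {w : (Fin (k + m) → ℝ) → ℝ} (hw : ContDiff ℝ 1 w) (z : Z k m) :
    gr2 (fun z => w (Ph k m z)) z = ∑ i, pd i w (Ph k m z) ^ 2 := by
  have hd : ∀ v : Z k m, fderiv ℝ (fun z => w (Ph k m z)) z v = fderiv ℝ w (Ph k m z) (Ph k m v) := by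
    intro v
    have h1 : HasFDerivAt (fun z => w (Ph k m z))
        ((fderiv ℝ w (Ph k m z)).comp ((Ph k m : Z k m ≃L[ℝ] _) : Z k m →L[ℝ] (Fin (k + m) → ℝ))) z :=
      ((hw.differentiable (by norm_num)) (Ph k m z)).hasFDerivAt.comp z (Ph k m).hasFDerivAt
    rw [h1.fderiv]
    rfl
  unfold gr2 pd
  rw [Fin.sum_univ_add]
  congr 1
  · refine Finset.sum_congr rfl fun i _ => ?_
    rw [hd, Ph_single_left]
  · refine Finset.sum_congr rfl fun j _ => ?_
    rw [hd, Ph_single_right]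

/-- the potential in the logarithmic variable -/
def Vl {k m : ℕ} (i0 : Fin k) (V : (Fin (k + m) → ℝ) → ℝ) (x : X m) : ℝ :=
  V (Ph k m (Real.exp (x 0) • EuclideanSpace.single i0 (1 : ℝ), tl x))

theorem Vl_meas {k m : ℕ} (i0 : Fin k) {V : (Fin (k + m) → ℝ) → ℝ} (hV : Measurable V) :
    Measurable (Vl i0 V : X m → ℝ) := by
  refine hV.comp ?_
  have : Continuous fun x : X m =>
      Ph k m (Real.exp (x 0) • EuclideanSpace.single i0 (1 : ℝ), tl x) := by
    refine (Ph k m).continuous.comp (Continuous.prodMk ?_ ?_)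
    · exact (Real.continuous_exp.comp (continuous_apply 0)).smul continuous_const
    · exact continuous_pi fun i => continuous_apply _
  exact this.measurable

theorem Vl_eq {k m : ℕ} (i0 : Fin k) {V : (Fin (k + m) → ℝ) → ℝ} (hI : Inv k m V) (x : X m) (z : Z k m)
    (h1 : ‖z.1‖ = Real.exp (x 0)) (h2 : z.2 = tl x) : Vl i0 V x = V (Ph k m z) := by
  refine hI _ _ ?_ ?_
  · rw [Ph_sq, Ph_sq, h1, norm_smul]
    simp
  · intro j
    rw [Ph_nat, Ph_nat, h2]

theorem t_FLAT (h1 : S_POT) (h2 : S_POL) (h3 : S_CST2) : S_FLAT := by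
  intro k m hk N w hw hws haw hsub V hV hI hV0 hVb
  obtain ⟨ε, hε, haw⟩ := haw
  have i0 : Fin k := ⟨0, by omega⟩
  set u : Fin N → Z k m → ℝ := fun a z => w a (Ph k m z) with hu
  have hgood : ∀ a, Good (u a) := by
    intro a
    refine ⟨(hw a).comp (Ph k m).contDiff, ?_, ε, hε, ?_⟩
    · exact (hws a).comp_homeomorph (Ph k m).toHomeomorph
    · intro z hz
      refine haw a _ ?_
      rw [Ph_sq]
      exact pow_lt_pow_left₀ hz (norm_nonneg _) (by norm_num)
  have hsub' : ∀ c : Fin N → ℝ, ∫ z, (∑ a, c a * u a z) ^ 2 ≤ ∑ a, c a ^ 2 := by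
    intro c
    refine le_trans (le_of_eq ?_) (hsub c)
    exact Ph_int (fun x => (∑ a, c a * w a x) ^ 2)
  have hb : ∃ C : ℝ, ∀ x : X m, Vl i0 V x ≤ C := by
    obtain ⟨C, hC⟩ := hVb
    exact ⟨C, fun x => hC _⟩
  have key := h1 k m hk N u hgood hsub' (Vl i0 V) (Vl_meas i0 hV) (fun x => hV0 _) hb
  have e1 : ∀ a, ∫ z : Z k m, Vl i0 V (Fin.cons (Real.log ‖z.1‖) z.2 : X m) * u a z ^ 2 =
      ∫ x, V x * w a x ^ 2 := by
    intro a
    rw [← Ph_int (fun x => V x * w a x ^ 2)]
    refine integral_congr_ae (Filter.Eventually.of_forall fun z => ?_)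
    simp only
    rcases eq_or_ne z.1 0 with h0 | h0
    · have : u a z = 0 := by
        refine haw a _ ?_
        rw [Ph_sq, h0, norm_zero, zero_pow two_ne_zero]
        positivity
      have h' : w a (Ph k m z) = 0 := this
      rw [this, h']
      ring
    · rw [Vl_eq i0 hI (Fin.cons (Real.log ‖z.1‖) z.2 : X m) z]
      · rw [Fin.cons_zero, Real.exp_log (norm_pos_iff.2 h0)]
      · funext i
        simp [tl]
  have e2 : ∀ a, ∫ z, gr2 (u a) z = ∫ x, ∑ i, pd i (w a) x ^ 2 := by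
    intro a
    rw [← Ph_int (fun x => ∑ i, pd i (w a) x ^ 2)]
    refine integral_congr_ae (Filter.Eventually.of_forall fun z => ?_)
    exact gr2_comp (hw a) z
  simp only [e1, e2] at key
  refine key.trans (le_of_eq ?_)
  have hsg : 0 ≤ Pool.Agent.R117.RL.sg k := (Pool.Agent.R117.RL.sg_pos (by omega)).le
  rw [h3.1 k m hk, ENNReal.ofReal_mul hsg, mul_comm (ENNReal.ofReal (Pool.Agent.R117.RL.sg k)), mul_assoc]
  congr 1
  have hF : Measurable fun z : Z k m => ENNReal.ofReal (V (Ph k m z) ^ (1 + ((k + m : ℕ) : ℝ) / 2)) :=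
    ((hV.comp (Ph k m).continuous.measurable).pow_const _).ennreal_ofReal
  rw [← Ph_lint (fun x => ENNReal.ofReal (V x ^ (1 + ((k + m : ℕ) : ℝ) / 2))),
    h2 k m (by omega) _ hF, ← lintegral_const_mul' _ _ ENNReal.ofReal_ne_top]
  refine lintegral_congr fun x => ?_
  have e3 : ∫⁻ w : S k, ENNReal.ofReal (V (Ph k m (Real.exp (x 0) • (w : E k), tl x)) ^
      (1 + ((k + m : ℕ) : ℝ) / 2)) ∂(sm k) =
      ENNReal.ofReal (Vl i0 V x ^ (1 + ((k : ℝ) + m) / 2)) * ENNReal.ofReal (Pool.Agent.R117.RL.sg k) := by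
    rw [← h3.2.1 k (by omega), ← lintegral_const]
    refine lintegral_congr fun w => ?_
    rw [Vl_eq i0 hI x (Real.exp (x 0) • (w : E k), tl x)]
    · push_cast
      rfl
    · simp only
      rw [norm_smul, Pool.Agent.N303.SH.S_norm]
      simp
    · rfl
  rw [e3, ENNReal.ofReal_mul (Real.exp_pos _).le]
  ring

end

end Pool.Agent.W2helper90.RT
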